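import Pool.Agent.H715R3.MedvE

/-!
# A cone of Medvedev degrees which are missed by all sets of configurations

There are an infinite, finitely generated, recursively presented group `G` and a nonempty `Π⁰₁`
class `P` without computable elements such that for every `Q ≤_M P` (`Q` any set of sequences) the
Medvedev degree of `Q` is the degree of some set `X` of configurations `G → ℕ` (`X` arbitrary: not
necessarily closed, shift-invariant or effective, with an infinite alphabet) if and only if `Q` has
a computable element; in this case `Q` has the degree of an effective subshift.  Moreover below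
every nonzero `Π⁰₁` degree there is a nonzero `Π⁰₁` degree of this kind, so the nonzero degrees which
are missing in `𝔪_eff(G)` are coinitial in the nonzero `Π⁰₁` degrees.
-/

set_option autoImplicit false

namespace Pool.Agent.Results.MP_474f70_lc.MissingCone

open Encodable

/-- The group element represented by a word over the generators and their inverses. -/
def wordVal {G : Type} [Group G] {r : ℕ} (gens : Fin r → G) (w : List (Fin r × Bool)) : G :=
  (w.map fun p => cond p.2 (gens p.1) (gens p.1)⁻¹).prod

/-- `G` has a presentation with generators `gens` and an r.e. set `R` of relators: `gens` generates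
`G` and the kernel of the evaluation map from the free group is the normal closure of `R`. -/
def RecursivelyPresented {G : Type} [Group G] {r : ℕ} (gens : Fin r → G) : Prop :=
  Subgroup.closure (Set.range gens) = ⊤ ∧
  ∃ R : Set (List (Fin r × Bool)), REPred (fun w => w ∈ R) ∧
    (FreeGroup.lift gens : FreeGroup (Fin r) →* G).ker =
      Subgroup.normalClosure (FreeGroup.mk '' R)

/-- `x` contains the word pattern `p` (a finite list of prescriptions `w ↦ a`): some translate of
`p` occurs in `x`. -/
def Contains {G : Type} [Group G] {r : ℕ} (gens : Fin r → G) (x : G → ℕ)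
    (p : List (List (Fin r × Bool) × ℕ)) : Prop :=
  ∃ g : G, ∀ q ∈ p, x (g * wordVal gens q.1) = q.2

/-- `X` is an effective subshift over the alphabet `{0, ..., k - 1}`: nonempty, closed,
shift-invariant, and the set of all configurations over this alphabet containing no pattern of some
r.e. set `F` of word patterns. -/
def IsEffectiveSubshift {G : Type} [Group G] {r : ℕ} (gens : Fin r → G) (k : ℕ)
    (X : Set (G → ℕ)) : Prop :=
  X.Nonempty ∧ IsClosed X ∧ (∀ (g : G), ∀ x ∈ X, (fun h => x (g⁻¹ * h)) ∈ X) ∧
  ∃ F : Set (List (List (Fin r × Bool) × ℕ)), REPred (fun p => p ∈ F) ∧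
    X = {x | (∀ g, x g < k) ∧ ∀ p ∈ F, ¬ Contains gens x p}

/-- Initial segment of length `m`. -/
def seg (y : ℕ → ℕ) (m : ℕ) : List ℕ := List.ofFn fun j : Fin m => y j.val

/-- Medvedev reducibility `P ≤_M Q`: some Turing functional (given by a computable monotone map on
finite strings) is defined on every element of `Q` and maps it to an element of `P`. -/
def MedvedevLe (P Q : Set (ℕ → ℕ)) : Prop :=
  ∃ f : List ℕ → List ℕ, Computable f ∧ (∀ σ τ : List ℕ, σ <+: τ → f σ <+: f τ) ∧
    ∀ y ∈ Q, ∃ x ∈ P, ∀ n : ℕ, ∃ m : ℕ, ∀ i < n, (f (seg y m))[i]? = some (x i)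

/-- `P` is a `Π⁰₁` subset of Cantor space. -/
def IsPi01 (P : Set (ℕ → ℕ)) : Prop :=
  ∃ c : List ℕ → Bool, Computable c ∧
    P = {x | (∀ n, x n ≤ 1) ∧ ∀ m : ℕ, c (seg x m) = false}

/-- The set of pullbacks `(x(w))_{w ∈ S^*}`, `x ∈ X`, coded on `ℕ` through the standard computable
coding of words (value `0` at numbers that code no word). -/
def pull {G : Type} [Group G] {r : ℕ} (gens : Fin r → G) (X : Set (G → ℕ)) : Set (ℕ → ℕ) :=
  {y | ∃ x ∈ X, ∀ n : ℕ, y n = (decode n : Option (List (Fin r × Bool))).elim 0
    (fun w => x (wordVal gens w))}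

/-- `P` and `Q` have the same Medvedev degree. -/
def MedvedevEq (P Q : Set (ℕ → ℕ)) : Prop := MedvedevLe P Q ∧ MedvedevLe Q P

open Pool.Agent.H715R3.Medv in
lemma seg_eq (y : ℕ → ℕ) (m : ℕ) : seg y m = pre y m := rfl

open Pool.Agent.H715R3.Medv in
lemma seg_computable {y : ℕ → ℕ} (hy : Computable y) : Computable (fun m => seg y m) := by
  have hrec : Computable (fun m : ℕ => (Nat.rec [] (fun j acc => acc ++ [y j]) m : List ℕ)) := by
    have h3 : Computable₂ (fun (_ : ℕ) (q : ℕ × List ℕ) => q.2 ++ [y q.1]) :=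
      Computable.list_concat.comp (Computable.snd.comp Computable.snd)
        (hy.comp (Computable.fst.comp Computable.snd))
    exact Computable.nat_rec Computable.id (Computable.const ([] : List ℕ)) h3
  refine Computable.of_eq hrec ?_
  intro m
  rw [seg_eq, pre_eq_map]
  induction m with
  | zero => rfl
  | succ m ih =>
    rw [List.range_succ, List.map_append, ← ih]
    rfl

open Pool.Agent.H715R3.Medv in
/-- the image of a computable point is computable -/
lemma image_computable {g : List ℕ → List ℕ} (hg : Computable g)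
    (hmono : ∀ σ τ : List ℕ, σ <+: τ → g σ <+: g τ) {y : ℕ → ℕ} (hy : Computable y)
    {x : ℕ → ℕ} (h : ∀ n : ℕ, ∃ m : ℕ, ∀ i < n, (g (seg y m))[i]? = some (x i)) :
    Computable x := by
  have h2 : Computable₂ (fun (i m : ℕ) => (g (seg y m))[i]?) :=
    Computable.list_getElem?.comp (hg.comp ((seg_computable hy).comp Computable.snd))
      Computable.fst
  refine Partrec.of_eq_tot (Partrec.rfindOpt h2) ?_
  intro i
  rw [Nat.rfindOpt_mono]
  · obtain ⟨m, hm⟩ := h (i + 1)
    exact ⟨m, Option.mem_def.2 (hm i (by omega))⟩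
  · intro a m n hmn ha
    exact Option.mem_def.2 (prefix_getElem? (hmono _ _ (pre_prefix y hmn)) (Option.mem_def.1 ha))

open Pool.Agent.H715R3.Medv in
/-- composition of functionals -/
lemma MedvedevLe.trans {P Q R : Set (ℕ → ℕ)} (h1 : MedvedevLe P Q) (h2 : MedvedevLe Q R) :
    MedvedevLe P R := by
  obtain ⟨f, hf, hfm, hfr⟩ := h1
  obtain ⟨g, hg, hgm, hgr⟩ := h2
  refine ⟨fun σ => f (g σ), hf.comp hg, fun σ τ h => hfm _ _ (hgm _ _ h), ?_⟩
  intro y hy
  obtain ⟨x, hx, hxy⟩ := hgr y hy
  obtain ⟨z, hz, hzx⟩ := hfr x hx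
  refine ⟨z, hz, fun n => ?_⟩
  obtain ⟨m, hm⟩ := hzx n
  obtain ⟨k, hk⟩ := hxy m
  refine ⟨k, fun i hi => ?_⟩
  have hpre : seg x m <+: g (seg y k) := by
    have hlen : (seg x m).length = m := pre_length x m
    rw [List.prefix_iff_eq_take, hlen]
    apply List.ext_getElem?
    intro j
    rw [List.getElem?_take]
    by_cases hj : j < m
    · rw [if_pos hj, hk j hj, seg_eq, pre_getElem?, if_pos hj]
    · rw [seg_eq, pre_getElem?, if_neg hj, if_neg hj]
  exact prefix_getElem? (hfm _ _ hpre) (hm i hi)

/-- a set with a computable element is reducible to every set -/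
lemma le_of_computable {P : Set (ℕ → ℕ)} {x : ℕ → ℕ} (hx : x ∈ P) (hc : Computable x)
    (Q : Set (ℕ → ℕ)) : MedvedevLe P Q := by
  refine ⟨fun σ => seg x σ.length, (seg_computable hc).comp Computable.list_length, ?_, ?_⟩
  · intro σ τ h
    exact Pool.Agent.H715R3.Medv.pre_prefix x h.length_le
  · intro y _
    refine ⟨x, hx, fun n => ⟨n, fun i hi => ?_⟩⟩
    have e : (seg y n).length = n := by simp [seg]
    show (seg x (seg y n).length)[i]? = some (x i)
    rw [e, seg_eq, Pool.Agent.H715R3.Medv.pre_getElem?, if_pos hi]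

/-- concatenation of a digit and a sequence -/
def cons (a : ℕ) (y : ℕ → ℕ) : ℕ → ℕ := fun n => Nat.casesOn n a y

/-- the meet of two classes -/
def meet (P R : Set (ℕ → ℕ)) : Set (ℕ → ℕ) :=
  {x | (x 0 = 0 ∧ (fun n => x (n + 1)) ∈ P) ∨ (x 0 = 1 ∧ (fun n => x (n + 1)) ∈ R)}

lemma seg_succ (x : ℕ → ℕ) (m : ℕ) : seg x (m + 1) = x 0 :: seg (fun n => x (n + 1)) m := by
  unfold seg
  rw [List.ofFn_succ]
  rfl

lemma meet_pi01 {P R : Set (ℕ → ℕ)} (hP : IsPi01 P) (hR : IsPi01 R) : IsPi01 (meet P R) := by
  obtain ⟨c, hc, rfl⟩ := hP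
  obtain ⟨d, hd, rfl⟩ := hR
  refine ⟨fun σ => cond (decide (σ[0]? = some 0)) (c σ.tail)
    (cond (decide (σ[0]? = some 1)) (d σ.tail) false), ?_, ?_⟩
  · have h1 : ∀ a : ℕ, Computable (fun σ : List ℕ => decide (σ[0]? = some a)) := by
      intro a
      have h : PrimrecPred (fun σ : List ℕ => σ[0]? = some a) :=
        Primrec.eq.comp (Primrec.list_getElem?.comp Primrec.id (Primrec.const 0))
          (Primrec.const (some a))
      exact h.decide.to_comp
    have ht : Computable (fun σ : List ℕ => σ.tail) := Primrec.list_tail.to_comp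
    exact Computable.cond (h1 0) (hc.comp ht)
      (Computable.cond (h1 1) (hd.comp ht) (Computable.const false))
  · ext x
    constructor
    · rintro (⟨h0, h1, h2⟩ | ⟨h0, h1, h2⟩)
      · refine ⟨fun n => ?_, fun m => ?_⟩
        · cases n with
          | zero => omega
          | succ n => exact h1 n
        · cases m with
          | zero => simp [seg]
          | succ m =>
            rw [seg_succ]
            simpa [h0] using h2 m
      · refine ⟨fun n => ?_, fun m => ?_⟩
        · cases n with
          | zero => omega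
          | succ n => exact h1 n
        · cases m with
          | zero => simp [seg]
          | succ m =>
            rw [seg_succ]
            simpa [h0] using h2 m
    · rintro ⟨h1, h2⟩
      have hx0 := h1 0
      have hcase : x 0 = 0 ∨ x 0 = 1 := by omega
      rcases hcase with h0 | h0
      · refine Or.inl ⟨h0, fun n => h1 (n + 1), fun m => ?_⟩
        have := h2 (m + 1)
        rw [seg_succ] at this
        simpa [h0] using this
      · refine Or.inr ⟨h0, fun n => h1 (n + 1), fun m => ?_⟩
        have := h2 (m + 1)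
        rw [seg_succ] at this
        simpa [h0] using this

lemma cons_le {P S : Set (ℕ → ℕ)} (a : ℕ) (h : ∀ y ∈ P, cons a y ∈ S) : MedvedevLe S P := by
  refine ⟨fun σ => a :: σ, Computable.list_cons.comp (Computable.const a) Computable.id, ?_, ?_⟩
  · intro σ τ hστ
    exact List.cons_prefix_cons.2 ⟨rfl, hστ⟩
  · intro y hy
    refine ⟨cons a y, h y hy, fun n => ⟨n, fun i hi => ?_⟩⟩
    cases i with
    | zero => rfl
    | succ i =>
      rw [List.getElem?_cons_succ, seg_eq, Pool.Agent.H715R3.Medv.pre_getElem?,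
        if_pos (by omega)]
      rfl

lemma meet_le_left (P R : Set (ℕ → ℕ)) : MedvedevLe (meet P R) P :=
  cons_le 0 fun _ hy => Or.inl ⟨rfl, hy⟩

lemma meet_le_right (P R : Set (ℕ → ℕ)) : MedvedevLe (meet P R) R :=
  cons_le 1 fun _ hy => Or.inr ⟨rfl, hy⟩

lemma meet_not_computable {P R : Set (ℕ → ℕ)} (hP : ∀ y ∈ P, ¬ Computable y)
    (hR : ∀ y ∈ R, ¬ Computable y) : ∀ y ∈ meet P R, ¬ Computable y := by
  intro y hy hc
  have hs : Computable (fun n => y (n + 1)) := hc.comp Computable.succ
  rcases hy with ⟨_, h⟩ | ⟨_, h⟩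
  · exact hP _ h hs
  · exact hR _ h hs

/-- the effective subshift with one point -/
lemma trivial_subshift {G : Type} [Group G] {r : ℕ} (gens : Fin r → G) :
    IsEffectiveSubshift gens 1 {(fun _ => 0 : G → ℕ)} := by
  refine ⟨⟨_, rfl⟩, isClosed_singleton, ?_, ∅, ?_, ?_⟩
  · rintro g x rfl
    rfl
  · have h : ComputablePred (fun p : List (List (Fin r × Bool) × ℕ) =>
        p ∈ (∅ : Set (List (List (Fin r × Bool) × ℕ)))) :=
      ⟨fun _ => isFalse (Set.notMem_empty _), (Computable.const false).of_eq fun _ => rfl⟩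
    exact h.to_re
  · ext x
    constructor
    · rintro rfl
      exact ⟨fun _ => Nat.one_pos, fun p hp => absurd hp (Set.notMem_empty p)⟩
    · rintro ⟨h, -⟩
      funext g
      have := h g
      show x g = 0
      omega

/-- the coded configuration of a constant configuration is computable -/
lemma const_computable {r : ℕ} (a : ℕ) : Computable (fun n : ℕ =>
    (Encodable.decode n : Option (List (Fin r × Bool))).elim 0 (fun _ => a)) := by
  have hd : Computable (fun n : ℕ => (Encodable.decode n : Option (List (Fin r × Bool)))) :=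
    Computable.decode
  have h3 : Computable₂ (fun (_ : ℕ) (_ : List (Fin r × Bool)) => a) := Computable.const _
  refine Computable.of_eq (Computable.option_casesOn hd (Computable.const 0) h3) ?_
  intro n
  cases (Encodable.decode n : Option (List (Fin r × Bool))) <;> rfl

/-- a set with a computable element has the degree of the one point subshift -/
lemma realize_zero {G : Type} [Group G] {r : ℕ} (gens : Fin r → G) {Q : Set (ℕ → ℕ)}
    {y : ℕ → ℕ} (hy : y ∈ Q) (hc : Computable y) :
    MedvedevEq Q (pull gens {(fun _ => 0 : G → ℕ)}) := by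
  refine ⟨le_of_computable hy hc _, ?_⟩
  have h : (fun n : ℕ => (Encodable.decode n : Option (List (Fin r × Bool))).elim 0
      (fun _ => 0)) ∈ pull gens {(fun _ => 0 : G → ℕ)} := ⟨_, rfl, fun _ => rfl⟩
  exact le_of_computable h (const_computable 0) _

open Pool.Agent.H715R3.Medv in
/-- below `PP` nothing but zero is realized, not even by arbitrary sets of configurations -/
lemma only_zero {Q : Set (ℕ → ℕ)} (hQ : MedvedevLe Q PP) {X : Set (GG → ℕ)}
    (hX : MedvedevEq Q (pull gens X)) : ∃ y ∈ Q, Computable y := by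
  obtain ⟨⟨g, hg, hgm, hgr⟩, h2⟩ := hX
  by_cases hcst : ∃ x ∈ X, ∀ a, x a = x 1
  · obtain ⟨x, hx, hx1⟩ := hcst
    obtain ⟨z, hz, hzr⟩ := hgr (fun n => (Encodable.decode n : Option (List (Fin 36 × Bool))).elim 0
      (fun _ => x 1)) ⟨x, hx, fun n => by
        have e : (fun w : List (Fin 36 × Bool) => x (wordVal gens w)) = fun _ => x 1 := by
          funext w
          exact hx1 _
        rw [e]⟩
    exact ⟨z, hz, image_computable hg hgm (const_computable (x 1)) hzr⟩
  · exfalso
    obtain ⟨f, hf, hfm, hfr⟩ := h2.trans hQ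
    apply no_reduction hf hfm
    intro z hz
    obtain ⟨y, ⟨x, hx, hyx⟩, hyr⟩ := hfr z hz
    refine ⟨y, x, fun w => ?_, ?_, hyr⟩
    · rw [hyx, Encodable.encodek]
      rfl
    · by_contra hcon
      push Not at hcon
      exact hcst ⟨x, hx, hcon⟩

open Pool.Agent.H715R3.Medv in
lemma presented : RecursivelyPresented gens := by
  refine ⟨gens_closure, Set.range rel, ?_, ?_⟩
  · have hR : Computable₂ (fun (w : List (Fin 36 × Bool)) (n : ℕ) => decide (rel n = w)) := by
      have h1 : PrimrecPred (fun p : List (Fin 36 × Bool) × ℕ => rel p.2 = p.1) :=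
        Primrec.eq.comp (rel_primrec.comp Primrec.snd) Primrec.fst
      exact h1.decide.to_comp
    refine REPred.of_eq (rePred_exists hR) ?_
    intro w
    simp [Set.mem_range]
  · have h1 : (FreeGroup.lift gens : FreeGroup (Fin 36) →* GG) = PresentedGroup.mk rels := by
      ext g
      simp [gens, PresentedGroup.of]
    rw [h1]
    have h2 : (PresentedGroup.mk rels).ker = Subgroup.normalClosure rels :=
      QuotientGroup.ker_mk' _
    rw [h2]
    congr 1
    ext x
    simp [rels]

open Pool.Agent.H715R3.Medv in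
lemma PP_pi01 : IsPi01 PP := by
  classical
  refine ⟨fun τ => decide (Kill τ), Kill_primrec.decide.to_comp, ?_⟩
  ext z
  constructor
  · rintro ⟨a, b⟩; exact ⟨a, fun m => decide_eq_false (b m)⟩
  · rintro ⟨a, b⟩; exact ⟨a, fun m => of_decide_eq_false (b m)⟩

/-- (A) There are an infinite, finitely generated, recursively presented group `G` and a nonempty
`Π⁰₁` class `P` without computable elements such that
(1) for every set `Q ≤_M P` the following are equivalent: `Q` has the Medvedev degree of some set
`X ⊆ ℕ^G` of configurations (`X` arbitrary); `Q` has the degree of an effective subshift on `G`;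
`Q` has a computable element (that is, its degree is zero);
(2) for every nonempty `Π⁰₁` class `R` without computable elements there is a nonempty `Π⁰₁` class
`Q ≤_M R`, `Q ≤_M P` without computable elements which does not have the Medvedev degree of any set
of configurations on `G`.
(B) In particular it is not true that for every infinite, finitely generated, recursively presented
group every nonempty `Π⁰₁` class has the Medvedev degree of some effective subshift on the group. -/
theorem result :
    (∃ (G : Type) (_ : Group G) (_ : Infinite G) (r : ℕ) (gens : Fin r → G),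
      RecursivelyPresented gens ∧ ∃ P : Set (ℕ → ℕ), IsPi01 P ∧ P.Nonempty ∧
        (∀ y ∈ P, ¬ Computable y) ∧
        (∀ Q : Set (ℕ → ℕ), MedvedevLe Q P →
          ((∃ X : Set (G → ℕ), MedvedevEq Q (pull gens X)) ↔ ∃ y ∈ Q, Computable y) ∧
          ((∃ (k : ℕ) (X : Set (G → ℕ)), IsEffectiveSubshift gens k X ∧
            MedvedevEq Q (pull gens X)) ↔ ∃ y ∈ Q, Computable y)) ∧
        ∀ R : Set (ℕ → ℕ), IsPi01 R → R.Nonempty → (∀ y ∈ R, ¬ Computable y) →
          ∃ Q : Set (ℕ → ℕ), IsPi01 Q ∧ Q.Nonempty ∧ (∀ y ∈ Q, ¬ Computable y) ∧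
            MedvedevLe Q R ∧ MedvedevLe Q P ∧
            ¬ ∃ X : Set (G → ℕ), MedvedevEq Q (pull gens X)) ∧
    ¬ ∀ (G : Type) [Group G] [Infinite G] (r : ℕ) (gens : Fin r → G),
      RecursivelyPresented gens →
      ∀ P : Set (ℕ → ℕ), IsPi01 P → P.Nonempty →
        ∃ (k : ℕ) (X : Set (G → ℕ)), IsEffectiveSubshift gens k X ∧
          MedvedevEq P (pull gens X) := by
  have hPc : ∀ y ∈ Pool.Agent.H715R3.Medv.PP, ¬ Computable y :=
    fun y hy => Pool.Agent.H715R3.Medv.PP_not_computable hy
  have hrefl : MedvedevLe Pool.Agent.H715R3.Medv.PP Pool.Agent.H715R3.Medv.PP := by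
    refine ⟨id, Computable.id, fun _ _ h => h, fun y hy => ⟨y, hy, fun n => ⟨n, fun i hi => ?_⟩⟩⟩
    rw [id, seg_eq, Pool.Agent.H715R3.Medv.pre_getElem?, if_pos hi]
  constructor
  · refine ⟨Pool.Agent.H715R3.Medv.GG, inferInstance, inferInstance, 36,
      Pool.Agent.H715R3.Medv.gens, presented, Pool.Agent.H715R3.Medv.PP, PP_pi01,
      Pool.Agent.H715R3.Medv.PP_nonempty, hPc, ?_, ?_⟩
    · intro Q hQ
      refine ⟨⟨fun ⟨X, hX⟩ => only_zero hQ hX, fun ⟨y, hy, hc⟩ => ⟨_, realize_zero _ hy hc⟩⟩,
        ⟨fun ⟨_, X, _, hX⟩ => only_zero hQ hX,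
          fun ⟨y, hy, hc⟩ => ⟨1, _, trivial_subshift _, realize_zero _ hy hc⟩⟩⟩
    · intro R hR hRn hRc
      have hm := meet_le_left Pool.Agent.H715R3.Medv.PP R
      refine ⟨meet Pool.Agent.H715R3.Medv.PP R, meet_pi01 PP_pi01 hR, ?_,
        meet_not_computable hPc hRc, meet_le_right _ R, hm, ?_⟩
      · obtain ⟨y, hy⟩ := Pool.Agent.H715R3.Medv.PP_nonempty
        exact ⟨cons 0 y, Or.inl ⟨rfl, hy⟩⟩
      · rintro ⟨X, hX⟩
        obtain ⟨y, hy, hc⟩ := only_zero hm hX
        exact meet_not_computable hPc hRc y hy hc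
  · intro h
    obtain ⟨k, X, -, hX⟩ := h Pool.Agent.H715R3.Medv.GG 36 Pool.Agent.H715R3.Medv.gens presented
      Pool.Agent.H715R3.Medv.PP PP_pi01 Pool.Agent.H715R3.Medv.PP_nonempty
    obtain ⟨y, hy, hc⟩ := only_zero hrefl hX
    exact hPc y hy hc

end Pool.Agent.Results.MP_474f70_lc.MissingCone
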